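import Pool.Agent.Q202.Rat.Good

/-!
# For every self-embedding `p` there is a well-placed `r` such that `p ∘ r` is well-placed
-/

set_option autoImplicit false
set_option linter.unusedSectionVars false

namespace Q202.Rat

open Order

/-- monotone map with the right fibres -/
theorem lex_between {a s t : ℚ} {x : ℚ ×ₗ ℚ} (h1 : toLex (a, s) < x) (h2 : x < toLex (a, t)) :
    (ofLex x).1 = a := by
  obtain ⟨⟨b, c⟩, rfl⟩ : ∃ y, x = toLex y := ⟨ofLex x, rfl⟩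
  rw [Prod.Lex.toLex_lt_toLex] at h1 h2
  change b = a
  rcases h1 with h1 | h1
  · rcases h2 with h2 | h2
    · exact absurd (h1.trans h2) (lt_irrefl _)
    · exact h2.1
  · exact h1.1.symm

theorem exists_good {p : ℚ → ℚ} (hp : StrictMono p) (x : ℚ) :
    ∃ (r : ℚ → ℚ) (S₁ S₂ : Set ℚ) (π₁ π₂ : ℚ → ℚ), StrictMono r ∧ (∃ a, r a = x) ∧
      IsGood r S₁ π₁ ∧ IsGood (p ∘ r) S₂ π₂ := by
  classical
  let S : Set ℚ := {y | (∃ z, p z < y) ∧ ∃ z, y < p z}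
  let c : ℚ → ℝ := fun y => sSup {t : ℝ | ∃ z : ℚ, (z : ℝ) = t ∧ p z < y}
  have hbdd : ∀ y ∈ S, BddAbove {t : ℝ | ∃ z : ℚ, (z : ℝ) = t ∧ p z < y} := by
    rintro y ⟨-, z', hz'⟩
    refine ⟨z', ?_⟩
    rintro _ ⟨z, rfl, hz⟩
    exact_mod_cast (hp.lt_iff_lt.1 (hz.trans hz')).le
  have hne : ∀ y ∈ S, {t : ℝ | ∃ z : ℚ, (z : ℝ) = t ∧ p z < y}.Nonempty := by
    rintro y ⟨⟨z, hz⟩, -⟩
    exact ⟨z, z, rfl, hz⟩
  have hpS : ∀ z, p z ∈ S := fun z => ⟨⟨z - 1, hp (by linarith)⟩, z + 1, hp (by linarith)⟩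
  -- `z < c y` and `c y < z`
  have hc1 : ∀ y ∈ S, ∀ z : ℚ, (z : ℝ) < c y → p z < y := by
    intro y hy z hz
    obtain ⟨_, ⟨w, rfl, hw⟩, hzw⟩ := exists_lt_of_lt_csSup (hne y hy) hz
    exact (hp (by exact_mod_cast hzw)).trans hw
  have hc2 : ∀ y ∈ S, ∀ z : ℚ, c y < z → y < p z := by
    intro y hy z hz
    obtain ⟨w, hw1, hw2⟩ := exists_rat_btwn hz
    have h1 : y ≤ p w := by
      by_contra hcon
      have : (w : ℝ) ≤ c y := le_csSup (hbdd y hy) ⟨w, rfl, not_le.1 hcon⟩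
      exact absurd hw1 (not_lt.2 this)
    exact h1.trans_lt (hp (by exact_mod_cast hw2))
  have hcp : ∀ z, c (p z) = z := by
    intro z
    refine le_antisymm ?_ ?_
    · by_contra hcon
      obtain ⟨w, hw1, hw2⟩ := exists_rat_btwn (not_le.1 hcon)
      have := hc1 _ (hpS z) w hw2
      rw [hp.lt_iff_lt] at this
      have h2 : (w : ℝ) < z := by exact_mod_cast this
      exact absurd hw1 (not_lt.2 h2.le)
    · by_contra hcon
      obtain ⟨w, hw1, hw2⟩ := exists_rat_btwn (not_le.1 hcon)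
      have := hc2 _ (hpS z) w hw1
      rw [hp.lt_iff_lt] at this
      have h2 : (z : ℝ) < w := by exact_mod_cast this
      exact absurd hw2 (not_lt.2 h2.le)
  have hcm : ∀ y ∈ S, ∀ z ∈ S, y ≤ z → c y ≤ c z := by
    intro y hy z hz hyz
    refine csSup_le_csSup (hbdd z hz) (hne y hy) ?_
    rintro _ ⟨w, rfl, hw⟩
    exact ⟨w, rfl, hw.trans_le hyz⟩
  -- the countable set `L`
  let L : Set ℝ := (Set.range fun z : ℚ => (z : ℝ)) ∪ c '' S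
  have hLc : L.Countable := (Set.countable_range _).union (S.to_countable.image c)
  have hL1 : ∀ z : ℚ, (z : ℝ) ∈ L := fun z => Or.inl ⟨z, rfl⟩
  have hL2 : ∀ y ∈ S, c y ∈ L := fun y hy => Or.inr ⟨y, hy, rfl⟩
  have i1 : Countable L := hLc.to_subtype
  have i2 : Nonempty L := ⟨⟨(0 : ℚ), hL1 0⟩⟩
  have i3 : DenselyOrdered L := ⟨fun a b hab => by
    obtain ⟨z, hz1, hz2⟩ := exists_rat_btwn (show a.1 < b.1 from hab)
    exact ⟨⟨z, hL1 z⟩, hz1, hz2⟩⟩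
  have i4 : NoMinOrder L := ⟨fun a => by
    obtain ⟨z, hz⟩ := exists_rat_lt a.1
    exact ⟨⟨z, hL1 z⟩, hz⟩⟩
  have i5 : NoMaxOrder L := ⟨fun a => by
    obtain ⟨z, hz⟩ := exists_rat_gt a.1
    exact ⟨⟨z, hL1 z⟩, hz⟩⟩
  have i6 : Countable (ℚ ×ₗ ℚ) := inferInstanceAs (Countable (ℚ × ℚ))
  obtain ⟨e⟩ : Nonempty (L ≃o ℚ ×ₗ ℚ) := iso_of_countable_dense _ _
  let f : L → ℚ := fun x => (ofLex (e x)).1
  have hfm : ∀ x y : L, x ≤ y → f x ≤ f y := by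
    intro x y hxy
    have h1 : e x ≤ e y := e.monotone hxy
    have h2 := (Prod.Lex.le_iff).1 h1
    rcases h2 with h2 | h2
    · exact h2.le
    · exact h2.1.le
  -- points below and above in the same fibre
  have hfb : ∀ x : L, ∃ z : ℚ, (z : ℝ) < x ∧ f ⟨z, hL1 z⟩ = f x := by
    intro x
    obtain ⟨⟨a, s⟩, hx⟩ : ∃ y, e x = toLex y := ⟨ofLex (e x), rfl⟩
    have h1 : (e.symm (toLex (a, s - 1)) : L) < x := by
      rw [← e.lt_iff_lt, e.apply_symm_apply, hx, Prod.Lex.toLex_lt_toLex]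
      exact Or.inr ⟨rfl, by dsimp only; linarith⟩
    obtain ⟨z, hz1, hz2⟩ := exists_rat_btwn (show (e.symm (toLex (a, s - 1)) : L).1 < x.1 from h1)
    refine ⟨z, hz2, ?_⟩
    have h2 : f x = a := by change (ofLex (e x)).1 = a; rw [hx]; rfl
    rw [h2]
    refine lex_between (s := s - 1) (t := s) ?_ ?_
    · rw [← e.symm_apply_lt]
      exact hz1
    · rw [← hx, e.lt_iff_lt]
      exact hz2
  have hfa : ∀ x : L, ∃ z : ℚ, (x : ℝ) < z ∧ f ⟨z, hL1 z⟩ = f x := by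
    intro x
    obtain ⟨⟨a, s⟩, hx⟩ : ∃ y, e x = toLex y := ⟨ofLex (e x), rfl⟩
    have h1 : x < (e.symm (toLex (a, s + 1)) : L) := by
      rw [← e.lt_iff_lt, e.apply_symm_apply, hx, Prod.Lex.toLex_lt_toLex]
      exact Or.inr ⟨rfl, by dsimp only; linarith⟩
    obtain ⟨z, hz1, hz2⟩ := exists_rat_btwn (show x.1 < (e.symm (toLex (a, s + 1)) : L).1 from h1)
    refine ⟨z, hz1, ?_⟩
    have h2 : f x = a := by change (ofLex (e x)).1 = a; rw [hx]; rfl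
    rw [h2]
    refine lex_between (s := s) (t := s + 1) ?_ ?_
    · rw [← hx, e.lt_iff_lt]
      exact hz1
    · rw [← e.lt_symm_apply]
      exact hz2
  have hfs : ∀ a : ℚ, ∃ z : ℚ, f ⟨z, hL1 z⟩ = a := by
    intro a
    obtain ⟨z, -, hz⟩ := hfb (e.symm (toLex (a, 0)))
    refine ⟨z, hz.trans ?_⟩
    change (ofLex (e (e.symm (toLex (a, 0))))).1 = a
    rw [e.apply_symm_apply]
    rfl
  -- the maps
  let π₁ : ℚ → ℚ := fun z => f ⟨z, hL1 z⟩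
  let π₂ : ℚ → ℚ := fun y => if hy : y ∈ S then f ⟨c y, hL2 y hy⟩ else 0
  have hπ₂ : ∀ y (hy : y ∈ S), π₂ y = f ⟨c y, hL2 y hy⟩ := fun y hy => dif_pos hy
  have hπp : ∀ z, π₂ (p z) = π₁ z := by
    intro z
    rw [hπ₂ _ (hpS z)]
    change f _ = f _
    congr 1
    exact Subtype.ext (hcp z)
  choose r₀ hr₀ using hfs
  let r : ℚ → ℚ := fun a => if a = π₁ x then x else r₀ a
  have hr : ∀ a, π₁ (r a) = a := by
    intro a
    change π₁ (if a = π₁ x then x else r₀ a) = a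
    split_ifs with h1
    · exact h1.symm
    · exact hr₀ a
  have hπ₁m : ∀ y z, y ≤ z → π₁ y ≤ π₁ z := fun y z hyz =>
    hfm _ _ (show ((y : ℝ)) ≤ z by exact_mod_cast hyz)
  refine ⟨r, Set.univ, S, π₁, π₂, fun a b hab => ?_, ⟨π₁ x, if_pos rfl⟩,
    ⟨fun _ _ _ _ _ _ _ => trivial, fun _ => trivial, hr, fun y _ z _ => hπ₁m y z, ?_, ?_⟩,
    ⟨?_, fun a => hpS _, ?_, ?_, ?_, ?_⟩⟩
  · by_contra hcon
    have := hπ₁m _ _ (not_lt.1 hcon)
    rw [hr, hr] at this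
    exact absurd hab (not_lt.2 this)
  · intro y _
    obtain ⟨z, hz1, hz2⟩ := hfb ⟨y, hL1 y⟩
    exact ⟨z, trivial, by exact_mod_cast (show (z : ℝ) < (y : ℝ) from hz1), hz2⟩
  · intro y _
    obtain ⟨z, hz1, hz2⟩ := hfa ⟨y, hL1 y⟩
    exact ⟨z, trivial, by exact_mod_cast (show (y : ℝ) < (z : ℝ) from hz1), hz2⟩
  · rintro y ⟨⟨a, ha⟩, -⟩ z ⟨-, b, hb⟩ w h1 h2
    exact ⟨⟨a, ha.trans_le h1⟩, b, h2.trans_lt hb⟩
  · intro a
    change π₂ (p (r a)) = a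
    rw [hπp, hr]
  · intro y hy z hz hyz
    rw [hπ₂ y hy, hπ₂ z hz]
    exact hfm _ _ (hcm y hy z hz hyz)
  · intro y hy
    obtain ⟨z, hz1, hz2⟩ := hfb ⟨c y, hL2 y hy⟩
    refine ⟨p z, hpS z, hc1 y hy z hz1, ?_⟩
    rw [hπp, hπ₂ y hy]
    exact hz2
  · intro y hy
    obtain ⟨z, hz1, hz2⟩ := hfa ⟨c y, hL2 y hy⟩
    refine ⟨p z, hpS z, hc2 y hy z hz1, ?_⟩
    rw [hπp, hπ₂ y hy]
    exact hz2

end Q202.Rat
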