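import Mathlib.Order.CountableDenseLinearOrder
import Mathlib.Data.Rat.Encodable
import Mathlib.Data.Prod.Lex
import Mathlib.Order.PiLex
import Mathlib.Algebra.Order.Archimedean.Real.Basic
import Pool.Agent.Q202.MinTop

/-!
# The order of the rationals: extension of finite partial isomorphisms, oligomorphy
-/

set_option autoImplicit false
set_option linter.unusedSectionVars false

namespace Q202.Rat

open Order

universe u v

/-- Cantor's theorem: a finite partial isomorphism extends to an isomorphism. -/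
theorem exists_iso_extending {α : Type u} {β : Type v} [LinearOrder α] [LinearOrder β]
    [Countable α] [DenselyOrdered α] [NoMinOrder α] [NoMaxOrder α]
    [Nonempty α] [Countable β] [DenselyOrdered β] [NoMinOrder β] [NoMaxOrder β] [Nonempty β]
    (f : Finset (α × β)) (hf : ∀ p ∈ f, ∀ q ∈ f, cmp p.1 q.1 = cmp p.2 q.2) :
    ∃ e : α ≃o β, ∀ p ∈ f, e p.1 = p.2 := by
  cases nonempty_encodable α
  cases nonempty_encodable β
  let to_cofinal : α ⊕ β → Cofinal (PartialIso α β) := fun p ↦
    Sum.recOn p (PartialIso.definedAtLeft β) (PartialIso.definedAtRight α)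
  let f₀ : PartialIso α β := ⟨f, hf⟩
  let our_ideal : Ideal (PartialIso α β) := idealOfCofinals f₀ to_cofinal
  have h0 : f₀ ∈ our_ideal := mem_idealOfCofinals _ _
  let F a := PartialIso.funOfIdeal a our_ideal
    (cofinal_meets_idealOfCofinals _ to_cofinal (Sum.inl a))
  let G b := PartialIso.invOfIdeal b our_ideal
    (cofinal_meets_idealOfCofinals _ to_cofinal (Sum.inr b))
  refine ⟨OrderIso.ofCmpEqCmp (fun a ↦ (F a).val) (fun b ↦ (G b).val) fun a b ↦ by
      rcases (F a).prop with ⟨f, hf, ha⟩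
      rcases (G b).prop with ⟨g, hg, hb⟩
      rcases our_ideal.directed _ hf _ hg with ⟨m, _, fm, gm⟩
      exact m.prop (a, _) (fm ha) (_, b) (gm hb), ?_⟩
  intro p hp
  change (F p.1).val = p.2
  rcases (F p.1).prop with ⟨g, hg, ha⟩
  rcases our_ideal.directed _ hg _ h0 with ⟨m, _, gm, fm⟩
  have h1 := m.prop _ (gm ha) _ (fm hp)
  exact (cmp_eq_eq_iff _ _).1 (h1.symm.trans (cmp_self_eq_eq _))

/-- a strictly increasing function on a finite set extends to an automorphism -/
theorem ext_iso {f : ℚ → ℚ} {S : Finset ℚ} (h : ∀ x ∈ S, ∀ y ∈ S, x < y → f x < f y) :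
    ∃ σ : ℚ ≃o ℚ, ∀ x ∈ S, σ x = f x := by
  classical
  obtain ⟨e, he⟩ := exists_iso_extending (S.image fun x => (x, f x)) (by
    intro p hp q hq
    obtain ⟨x, hx, rfl⟩ := Finset.mem_image.1 hp
    obtain ⟨y, hy, rfl⟩ := Finset.mem_image.1 hq
    dsimp only
    rcases lt_trichotomy x y with h1 | h1 | h1
    · rw [(cmp_eq_lt_iff _ _).2 h1, (cmp_eq_lt_iff _ _).2 (h x hx y hy h1)] 
    · subst h1
      rw [cmp_self_eq_eq, cmp_self_eq_eq]
    · rw [(cmp_eq_gt_iff _ _).2 h1, (cmp_eq_gt_iff _ _).2 (h y hy x hx h1)])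
  exact ⟨e, fun x hx => he (x, f x) (Finset.mem_image_of_mem _ hx)⟩

/-- the automorphisms of `(ℚ, <)` as a permutation group -/
def autQ : Subgroup (Equiv.Perm ℚ) where
  carrier := {g | StrictMono g}
  mul_mem' h h' := h.comp h'
  one_mem' := strictMono_id
  inv_mem' := by
    intro g hg x y hxy
    change StrictMono g at hg
    rw [← hg.lt_iff_lt]
    change g (g.symm x) < g (g.symm y)
    rwa [g.apply_symm_apply, g.apply_symm_apply]

theorem toEquiv_mem (σ : ℚ ≃o ℚ) : (σ.toEquiv : Equiv.Perm ℚ) ∈ autQ := σ.strictMono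

theorem oligo_autQ : Q202.MinTop.Oligo autQ := by
  classical
  intro n
  refine ⟨{x | ∀ i, x i ∈ (Set.range fun k : Fin (n + 1) => (k : ℚ))},
    Set.Finite.pi' fun _ => Set.finite_range _, fun y => ?_⟩
  let k : ℚ → ℕ := fun z => ((Finset.univ.image y).filter (· < z)).card
  have hk : ∀ i, k (y i) < n + 1 := by
    intro i
    refine Nat.lt_succ_of_le ((Finset.card_filter_le _ _).trans ?_)
    exact Finset.card_image_le.trans (by simp)
  have hmono : ∀ z ∈ Finset.univ.image y, ∀ z' ∈ Finset.univ.image y, z < z' → k z < k z' := by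
    intro z hz z' hz' h
    refine Finset.card_lt_card ⟨?_, ?_⟩
    · intro w hw
      rw [Finset.mem_filter] at hw ⊢
      exact ⟨hw.1, hw.2.trans h⟩
    · intro h1
      have h2 : z ∈ (Finset.univ.image y).filter (· < z') := Finset.mem_filter.2 ⟨hz, h⟩
      exact lt_irrefl _ (Finset.mem_filter.1 (h1 h2)).2
  obtain ⟨σ, hσ⟩ := ext_iso (f := fun z => (k z : ℚ)) (S := Finset.univ.image y)
    (fun z hz z' hz' h => by exact_mod_cast hmono z hz z' hz' h)
  refine ⟨fun i => (k (y i) : ℚ), fun i => ⟨⟨k (y i), hk i⟩, rfl⟩, σ.symm.toEquiv,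
    toEquiv_mem _, fun i => ?_⟩
  change σ.symm (k (y i) : ℚ) = y i
  rw [← hσ (y i) (Finset.mem_image_of_mem _ (Finset.mem_univ i))]
  exact σ.symm_apply_apply _

/-! ### Some automorphisms -/

/-- an automorphism with fixed points exactly `(-∞, x]` -/
theorem exists_up (x : ℚ) : ∃ σ : ℚ ≃o ℚ, (∀ y, y ≤ x → σ y = y) ∧ ∀ y, x < y → y < σ y := by
  let f : ℚ → ℚ := fun y => if y ≤ x then y else y + (y - x)
  have hf : StrictMono f := by
    intro y z h
    change (if y ≤ x then y else y + (y - x)) < (if z ≤ x then z else z + (z - x))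
    split_ifs <;> linarith
  have hs : Function.Surjective f := by
    intro y
    by_cases h : y ≤ x
    · exact ⟨y, if_pos h⟩
    · refine ⟨(y + x) / 2, ?_⟩
      have : ¬ (y + x) / 2 ≤ x := by push Not at h ⊢; linarith
      change (if (y + x) / 2 ≤ x then _ else _) = _
      rw [if_neg this]
      ring
  refine ⟨hf.orderIsoOfSurjective f hs, fun y hy => if_pos hy, fun y hy => ?_⟩
  change y < if y ≤ x then y else y + (y - x)
  rw [if_neg (not_le.2 hy)]
  linarith

/-- an automorphism with fixed points exactly `[x, ∞)` -/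
theorem exists_down (x : ℚ) : ∃ σ : ℚ ≃o ℚ, (∀ y, x ≤ y → σ y = y) ∧ ∀ y, y < x → σ y < y := by
  let f : ℚ → ℚ := fun y => if x ≤ y then y else y - (x - y)
  have hf : StrictMono f := by
    intro y z h
    change (if x ≤ y then y else y - (x - y)) < (if x ≤ z then z else z - (x - z))
    split_ifs <;> linarith
  have hs : Function.Surjective f := by
    intro y
    by_cases h : x ≤ y
    · exact ⟨y, if_pos h⟩
    · refine ⟨(y + x) / 2, ?_⟩
      have : ¬ x ≤ (y + x) / 2 := by push Not at h ⊢; linarith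
      change (if x ≤ (y + x) / 2 then _ else _) = _
      rw [if_neg this]
      ring
  refine ⟨hf.orderIsoOfSurjective f hs, fun y hy => if_pos hy, fun y hy => ?_⟩
  change (if x ≤ y then y else y - (x - y)) < y
  rw [if_neg (not_le.2 hy)]
  linarith

end Q202.Rat
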