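import Pool.Agent.Q202.Rat.Ext

/-!
# Well-placed self-embeddings of the rationals
-/

set_option autoImplicit false
set_option linter.unusedSectionVars false

namespace Q202.Rat

open Order

/-- The fibres of `π` on the convex set `S` are open intervals without endpoints, and `u` is a
section of `π`. -/
structure IsGood (u : ℚ → ℚ) (S : Set ℚ) (π : ℚ → ℚ) : Prop where
  conv : ∀ x ∈ S, ∀ y ∈ S, ∀ z, x ≤ z → z ≤ y → z ∈ S
  mem : ∀ x, u x ∈ S
  sec : ∀ x, π (u x) = x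
  mono : ∀ x ∈ S, ∀ y ∈ S, x ≤ y → π x ≤ π y
  below : ∀ x ∈ S, ∃ y ∈ S, y < x ∧ π y = π x
  above : ∀ x ∈ S, ∃ y ∈ S, x < y ∧ π y = π x

section

variable {u : ℚ → ℚ} {S : Set ℚ} {π : ℚ → ℚ} (h : IsGood u S π)

/-- a fibre -/
abbrev Fib (S : Set ℚ) (π : ℚ → ℚ) (a : ℚ) : Type := {y : ℚ // y ∈ S ∧ π y = a}

include h

theorem exists_e (a : ℚ) : ∃ e : ℚ ≃o Fib S π a, (e 0).1 = u a := by
  have h1 : Nonempty (Fib S π a) := ⟨⟨u a, h.mem a, h.sec a⟩⟩
  have h2 : NoMinOrder (Fib S π a) := ⟨fun y => by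
    obtain ⟨z, hz, hz1, hz2⟩ := h.below y.1 y.2.1
    exact ⟨⟨z, hz, hz2.trans y.2.2⟩, hz1⟩⟩
  have h3 : NoMaxOrder (Fib S π a) := ⟨fun y => by
    obtain ⟨z, hz, hz1, hz2⟩ := h.above y.1 y.2.1
    exact ⟨⟨z, hz, hz2.trans y.2.2⟩, hz1⟩⟩
  have h4 : DenselyOrdered (Fib S π a) := ⟨fun y z hyz => by
    obtain ⟨w, hw1, hw2⟩ := exists_between (show y.1 < z.1 from hyz)
    have hw : w ∈ S := h.conv _ y.2.1 _ z.2.1 _ hw1.le hw2.le
    refine ⟨⟨w, hw, le_antisymm ?_ ?_⟩, hw1, hw2⟩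
    · exact (h.mono _ hw _ z.2.1 hw2.le).trans z.2.2.le
    · exact y.2.2.ge.trans (h.mono _ y.2.1 _ hw hw1.le)⟩
  obtain ⟨e, he⟩ := exists_iso_extending
    ({((0 : ℚ), (⟨u a, h.mem a, h.sec a⟩ : Fib S π a))} : Finset (ℚ × Fib S π a)) (by
      intro p hp q hq
      rw [Finset.mem_singleton] at hp hq
      rw [hp, hq]
      exact (cmp_self_eq_eq _).trans (cmp_self_eq_eq _).symm)
  exact ⟨e, congrArg Subtype.val (he _ (Finset.mem_singleton_self _))⟩

theorem exists_lift (τ w : ℚ ≃o ℚ) :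
    ∃ (e : ∀ a, ℚ ≃o Fib S π a) (σ : ℚ ≃o ℚ), (∀ a, (e a 0).1 = u a) ∧
      (∀ y, y ∉ S → σ y = y) ∧ ∀ a s, σ (e a s).1 = (e (τ a) (w s)).1 := by
  classical
  choose e he using exists_e h
  -- coordinates
  have hco : ∀ y, y ∈ S → ∃ s, (e (π y) s).1 = y := fun y hy =>
    ⟨(e (π y)).symm ⟨y, hy, rfl⟩, by rw [OrderIso.apply_symm_apply]⟩
  choose pos hpos using hco
  have hinj : ∀ a s b t, (e a s).1 = (e b t).1 → a = b ∧ s = t := by
    intro a s b t hab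
    have h1 : a = b := by
      rw [← (e a s).2.2, ← (e b t).2.2, hab]
    subst h1
    exact ⟨rfl, (e a).injective (Subtype.ext hab)⟩
  have hlt : ∀ a s b t, (e a s).1 < (e b t).1 ↔ a < b ∨ (a = b ∧ s < t) := by
    intro a s b t
    rcases lt_trichotomy a b with h1 | h1 | h1
    · refine ⟨fun _ => Or.inl h1, fun _ => ?_⟩
      by_contra hcon
      have := h.mono _ (e b t).2.1 _ (e a s).2.1 (not_lt.1 hcon)
      rw [(e a s).2.2, (e b t).2.2] at this
      exact absurd h1 (not_lt.2 this)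
    · subst h1
      constructor
      · intro h2
        exact Or.inr ⟨rfl, (e a).lt_iff_lt.1 h2⟩
      · rintro (h2 | ⟨-, h2⟩)
        · exact absurd h2 (lt_irrefl _)
        · exact (e a).lt_iff_lt.2 h2
    · constructor
      · intro h2
        have := h.mono _ (e a s).2.1 _ (e b t).2.1 h2.le
        rw [(e a s).2.2, (e b t).2.2] at this
        exact absurd h1 (not_lt.2 this)
      · rintro (h2 | ⟨h2, -⟩)
        · exact absurd h2 (lt_asymm h1)
        · exact absurd h1 (h2 ▸ lt_irrefl _)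
  let f : (ℚ ≃o ℚ) → (ℚ ≃o ℚ) → ℚ → ℚ := fun τ w y =>
    if hy : y ∈ S then (e (τ (π y)) (w (pos y hy))).1 else y
  have hf : ∀ τ w a s, f τ w (e a s).1 = (e (τ a) (w s)).1 := by
    intro τ w a s
    have hy : (e a s).1 ∈ S := (e a s).2.1
    have h1 : π (e a s).1 = a := (e a s).2.2
    have h2 : pos (e a s).1 hy = s := (hinj _ _ _ _ (hpos _ hy)).2
    change (if hy : (e a s).1 ∈ S then (e (τ (π (e a s).1)) (w (pos (e a s).1 hy))).1
      else (e a s).1) = _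
    rw [dif_pos hy, h2, h1]
  have hf' : ∀ τ w y, y ∉ S → f τ w y = y := fun τ w y hy => dif_neg hy
  have hfS : ∀ τ w y, y ∈ S → f τ w y ∈ S := by
    intro τ w y hy
    rw [← hpos y hy, hf]
    exact (e _ _).2.1
  have hmono : ∀ τ w, StrictMono (f τ w) := by
    intro τ w y z hyz
    by_cases hy : y ∈ S
    · by_cases hz : z ∈ S
      · rw [← hpos y hy, ← hpos z hz, hf, hf, hlt, τ.lt_iff_lt, w.lt_iff_lt,
          EmbeddingLike.apply_eq_iff_eq]
        rw [← hlt, hpos, hpos]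
        exact hyz
      · rw [hf' τ w z hz]
        by_contra hcon
        exact hz (h.conv _ hy _ (hfS τ w y hy) _ hyz.le (not_lt.1 hcon))
    · by_cases hz : z ∈ S
      · rw [hf' τ w y hy]
        by_contra hcon
        exact hy (h.conv _ (hfS τ w z hz) _ hz _ (not_lt.1 hcon) hyz.le)
      · rwa [hf' τ w y hy, hf' τ w z hz]
  have hinv : ∀ τ w : ℚ ≃o ℚ, Function.RightInverse (f τ.symm w.symm) (f τ w) := by
    intro τ w y
    by_cases hy : y ∈ S
    · have h1 : f τ.symm w.symm y = (e (τ.symm (π y)) (w.symm (pos y hy))).1 := dif_pos hy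
      rw [h1, hf, τ.apply_symm_apply, w.apply_symm_apply, hpos]
    · rw [hf' _ _ y hy, hf' _ _ y hy]
  exact ⟨e, (hmono τ w).orderIsoOfRightInverse _ _ (hinv τ w), he, fun y hy => hf' τ w y hy,
    fun a s => hf τ w a s⟩

/-- every automorphism lifts -/
theorem exists_lift₁ (τ : ℚ ≃o ℚ) : ∃ σ : ℚ ≃o ℚ, (∀ x, σ (u x) = u (τ x)) ∧
    (∀ y, y ∉ S → σ y = y) ∧ ∀ y ∈ S, σ y ∈ S ∧ π (σ y) = τ (π y) := by
  obtain ⟨e, σ, h1, h2, h3⟩ := exists_lift h τ (OrderIso.refl ℚ)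
  refine ⟨σ, fun x => ?_, h2, fun y hy => ?_⟩
  · rw [← h1, h3, ← h1]
    rfl
  · obtain ⟨s, hs⟩ : ∃ s, (e (π y) s).1 = y :=
      ⟨(e (π y)).symm ⟨y, hy, rfl⟩, by rw [OrderIso.apply_symm_apply]⟩
    have h4 : σ y = (e (τ (π y)) s).1 := by
      conv_lhs => rw [← hs]
      exact h3 _ _
    rw [h4]
    exact (e _ _).2

/-- every point outside of the image is moved by a lift of the identity -/
theorem exists_lift₂ {y : ℚ} (hy : y ∈ S) (hyu : y ≠ u (π y)) :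
    ∃ σ : ℚ ≃o ℚ, (∀ x, σ (u x) = u x) ∧ σ y ≠ y := by
  let w : ℚ ≃o ℚ := OrderIso.mulLeft₀ 2 (by norm_num)
  have hw : ∀ s, w s = 2 * s := fun s => rfl
  obtain ⟨e, σ, h1, h2, h3⟩ := exists_lift h (OrderIso.refl ℚ) w
  refine ⟨σ, fun x => ?_, fun hcon => ?_⟩
  · rw [← h1, h3, hw, mul_zero]
    rfl
  · obtain ⟨s, hs⟩ : ∃ s, (e (π y) s).1 = y :=
      ⟨(e (π y)).symm ⟨y, hy, rfl⟩, by rw [OrderIso.apply_symm_apply]⟩
    have h4 : σ y = (e (π y) (2 * s)).1 := by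
      conv_lhs => rw [← hs]
      exact h3 _ _
    rw [h4] at hcon
    have h5 : 2 * s = s := (e (π y)).injective (Subtype.ext (hcon.trans hs.symm))
    have h6 : s = 0 := by linarith
    rw [h6, h1] at hs
    exact hyu hs.symm

end

end Q202.Rat
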