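import Pool.Agent.Q202.Rat.Unary
import Mathlib.Data.EReal.Basic

/-!
# Continuity on the `n`-ary operations which preserve the strict order of `ℚ`
-/

set_option autoImplicit false
set_option linter.unusedSectionVars false

namespace Q202.Rat

open Topology Filter Q202.Rec Order

universe u v w

/-- two self-embeddings which fix `A` and whose images are separated by finitely many points -/
theorem exists_q (A : Finset ℚ) : ∃ (q₁ q₂ : ℚ → ℚ) (E : Finset ℚ), StrictMono q₁ ∧
    StrictMono q₂ ∧ (∀ x ∈ A, q₁ x = x) ∧ (∀ x ∈ A, q₂ x = x) ∧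
    (∀ x y, q₁ x < q₂ y → ∃ e ∈ E, q₁ x < e ∧ e < q₂ y) ∧
    (∀ x y, q₂ x < q₁ y → ∃ e ∈ E, q₂ x < e ∧ e < q₁ y) ∧
    ∀ x y, q₁ x = q₂ y → q₁ x ∈ A := by
  classical
  let k : ℚ → ℕ := fun x => (A.filter (· < x)).card + (A.filter (· ≤ x)).card
  have hk : ∀ x y, x < y → k x ≤ k y := by
    intro x y hxy
    refine Nat.add_le_add (Finset.card_le_card ?_) (Finset.card_le_card ?_)
    · intro a ha
      rw [Finset.mem_filter] at ha ⊢
      exact ⟨ha.1, ha.2.trans hxy⟩
    · intro a ha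
      rw [Finset.mem_filter] at ha ⊢
      exact ⟨ha.1, ha.2.trans hxy.le⟩
  have hkA : ∀ x y, x < y → (x ∈ A ∨ y ∈ A) → k x < k y := by
    intro x y hxy hA
    rcases hA with hA | hA
    · refine Nat.add_lt_add_of_lt_of_le (Finset.card_lt_card ⟨?_, fun h => ?_⟩)
        (Finset.card_le_card ?_)
      · intro a ha
        rw [Finset.mem_filter] at ha ⊢
        exact ⟨ha.1, ha.2.trans hxy⟩
      · have h1 : x ∈ A.filter (· < y) := Finset.mem_filter.2 ⟨hA, hxy⟩
        exact lt_irrefl _ (Finset.mem_filter.1 (h h1)).2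
      · intro a ha
        rw [Finset.mem_filter] at ha ⊢
        exact ⟨ha.1, ha.2.trans hxy.le⟩
    · refine Nat.add_lt_add_of_le_of_lt (Finset.card_le_card ?_)
        (Finset.card_lt_card ⟨?_, fun h => ?_⟩)
      · intro a ha
        rw [Finset.mem_filter] at ha ⊢
        exact ⟨ha.1, ha.2.trans hxy⟩
      · intro a ha
        rw [Finset.mem_filter] at ha ⊢
        exact ⟨ha.1, ha.2.trans hxy.le⟩
      · have h1 : y ∈ A.filter (· ≤ y) := Finset.mem_filter.2 ⟨hA, le_rfl⟩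
        exact absurd hxy (not_lt.2 (Finset.mem_filter.1 (h h1)).2)
  have hkeq : ∀ x y, k x = k y → (x ∈ A ∨ y ∈ A) → x = y := by
    intro x y hxy hA
    rcases lt_trichotomy x y with h | h | h
    · exact absurd hxy (hkA x y h hA).ne
    · exact h
    · exact absurd hxy (hkA y x h hA.symm).ne'
  let Λ := ℕ ×ₗ (ℕ ×ₗ ℚ)
  let mk : ℕ → ℕ → ℚ → Λ := fun a b c => toLex (a, toLex (b, c))
  have hmk : ∀ a b c a' b' c', mk a b c < mk a' b' c' ↔
      a < a' ∨ (a = a' ∧ (b < b' ∨ (b = b' ∧ c < c'))) := by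
    intro a b c a' b' c'
    exact Prod.Lex.toLex_lt_toLex.trans (or_congr Iff.rfl
      (and_congr Iff.rfl Prod.Lex.toLex_lt_toLex))
  let j₁ : ℚ → ℕ := fun x => if x ∈ A then 2 else 1
  let j₂ : ℚ → ℕ := fun x => if x ∈ A then 2 else 3
  have hj₁ : ∀ x, j₁ x ≤ 2 := by intro x; simp only [j₁]; split_ifs <;> omega
  have hj₂ : ∀ x, j₂ x ≤ 3 := by intro x; simp only [j₂]; split_ifs <;> omega
  let f₁ : ℚ → Λ := fun x => mk (k x) (j₁ x) x
  let f₂ : ℚ → Λ := fun x => mk (k x) (j₂ x) x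
  have hf₁ : StrictMono f₁ := by
    intro x y hxy
    simp only [f₁, hmk]
    rcases (hk x y hxy).lt_or_eq with h | h
    · exact Or.inl h
    · right
      have hx : x ∉ A := fun hx => absurd h (hkA x y hxy (Or.inl hx)).ne
      have hy : y ∉ A := fun hy => absurd h (hkA x y hxy (Or.inr hy)).ne
      simp only [j₁, hx, hy, if_false]
      exact ⟨h, Or.inr ⟨trivial, hxy⟩⟩
  have hf₂ : StrictMono f₂ := by
    intro x y hxy
    simp only [f₂, hmk]
    rcases (hk x y hxy).lt_or_eq with h | h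
    · exact Or.inl h
    · right
      have hx : x ∉ A := fun hx => absurd h (hkA x y hxy (Or.inl hx)).ne
      have hy : y ∉ A := fun hy => absurd h (hkA x y hxy (Or.inr hy)).ne
      simp only [j₂, hx, hy, if_false]
      exact ⟨h, Or.inr ⟨trivial, hxy⟩⟩
  have hf₁₂ : ∀ x ∈ A, f₁ x = f₂ x := by
    intro x hx
    simp only [f₁, f₂, j₁, j₂, hx, if_true]
  have hcΛ : Countable Λ := inferInstanceAs (Countable (ℕ × (ℕ × ℚ)))
  obtain ⟨ε⟩ : Nonempty (Λ ↪o ℚ) := embedding_from_countable_to_dense _ _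
  obtain ⟨σ, hσ⟩ := ext_iso (f := fun a => ε (f₁ a)) (S := A)
    fun x _ y _ h => ε.strictMono (hf₁ h)
  let g : Λ → ℚ := fun z => σ.symm (ε z)
  have hg : StrictMono g := σ.symm.strictMono.comp ε.strictMono
  have hg' : ∀ z z', g z < g z' ↔ z < z' := fun z z' => hg.lt_iff_lt
  have hbd : ∀ x, k x < 2 * A.card + 1 := by
    intro x
    have h1 := Finset.card_filter_le A (· < x)
    have h2 := Finset.card_filter_le A (· ≤ x)
    change (A.filter (· < x)).card + (A.filter (· ≤ x)).card < _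
    omega
  let E : Finset ℚ := ((Finset.range (2 * A.card + 1)) ×ˢ (Finset.range 5)).image
    fun p => g (mk p.1 p.2 0)
  have hE : ∀ x j, j < 5 → g (mk (k x) j 0) ∈ E := fun x j hj =>
    Finset.mem_image.2 ⟨(k x, j), Finset.mem_product.2
      ⟨Finset.mem_range.2 (hbd x), Finset.mem_range.2 hj⟩, rfl⟩
  have hgA : ∀ x ∈ A, g (f₁ x) = x := by
    intro x hx
    have h1 := hσ x hx
    change σ.symm (ε (f₁ x)) = x
    rw [← h1, σ.symm_apply_apply]
  refine ⟨fun x => g (f₁ x), fun x => g (f₂ x), E, hg.comp hf₁, hg.comp hf₂, hgA,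
    fun x hx => ?_, fun x y hxy => ?_, fun x y hxy => ?_, fun x y hxy => ?_⟩
  · change g (f₂ x) = x
    rw [← hf₁₂ x hx, hgA x hx]
  · rw [hg'] at hxy
    simp only [f₁, f₂, hmk] at hxy
    rcases hxy with h | ⟨h, h'⟩
    · refine ⟨_, hE x 4 (by omega), ?_, ?_⟩
      · simp only [hg', f₁, hmk]
        exact Or.inr ⟨trivial, Or.inl (by have := hj₁ x; omega)⟩
      · simp only [hg', f₂, hmk]
        exact Or.inl h
    · by_cases hA : x ∈ A ∨ y ∈ A
      · exfalso
        have hxy := hkeq x y h hA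
        subst hxy
        have hA : x ∈ A := hA.elim id id
        simp only [j₁, j₂, hA, if_true, lt_irrefl, and_false, or_false] at h'
      · rw [not_or] at hA
        refine ⟨_, hE x 2 (by omega), ?_, ?_⟩
        · simp only [hg', f₁, hmk, j₁, hA, if_false]
          exact Or.inr ⟨trivial, Or.inl (by omega)⟩
        · simp only [hg', f₂, hmk, j₂, hA, if_false]
          exact Or.inr ⟨h, Or.inl (by omega)⟩
  · rw [hg'] at hxy
    simp only [f₁, f₂, hmk] at hxy
    rcases hxy with h | ⟨h, h'⟩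
    · refine ⟨_, hE x 4 (by omega), ?_, ?_⟩
      · simp only [hg', f₂, hmk]
        exact Or.inr ⟨trivial, Or.inl (by have := hj₂ x; omega)⟩
      · simp only [hg', f₁, hmk]
        exact Or.inl h
    · exfalso
      by_cases hA : x ∈ A ∨ y ∈ A
      · have hxy := hkeq x y h hA
        subst hxy
        have hA : x ∈ A := hA.elim id id
        simp only [j₁, j₂, hA, if_true, lt_irrefl, and_false, or_false] at h'
      · rw [not_or] at hA
        simp only [j₁, j₂, hA, if_false] at h'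
        omega
  · have h1 : f₁ x = f₂ y := hg.injective hxy
    have h2 : x = y := congrArg (fun z : Λ => (ofLex (ofLex z).2).2) h1
    subst h2
    have h3 : j₁ x = j₂ x := congrArg (fun z : Λ => (ofLex (ofLex z).2).1) h1
    by_cases hA : x ∈ A
    · change g (f₁ x) ∈ A
      rwa [hgA x hA]
    · simp only [j₁, j₂, hA, if_false] at h3
      omega

/-- a partial strictly increasing function extends, after a self-embedding of the values -/
theorem exists_ext {n : ℕ} (D : Set (Fin (n + 1) → ℚ)) (h : (Fin (n + 1) → ℚ) → ℚ)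
    (hD : ∀ v ∈ D, ∀ w ∈ D, (∀ j, v j < w j) → h v < h w) :
    ∃ (m : ℚ → ℚ) (H : (Fin (n + 1) → ℚ) → ℚ), StrictMono m ∧
      (∀ v w, (∀ j, v j < w j) → H v < H w) ∧ ∀ v ∈ D, H v = m (h v) := by
  classical
  let Λ := EReal ×ₗ (ℕ ×ₗ ℚ)
  let mk : EReal → ℕ → ℚ → Λ := fun a b c => toLex (a, toLex (b, c))
  have hmk : ∀ a b c a' b' c', mk a b c < mk a' b' c' ↔
      a < a' ∨ (a = a' ∧ (b < b' ∨ (b = b' ∧ c < c'))) := by
    intro a b c a' b' c'
    exact Prod.Lex.toLex_lt_toLex.trans (or_congr Iff.rfl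
      (and_congr Iff.rfl Prod.Lex.toLex_lt_toLex))
  let c : ℚ → EReal := fun x => ((x : ℝ) : EReal)
  have hc : StrictMono c := fun x y hxy => EReal.coe_lt_coe_iff.2 (Rat.cast_lt.2 hxy)
  let B : (Fin (n + 1) → ℚ) → Set EReal := fun x => {z | ∃ v ∈ D, (∀ j, v j < x j) ∧ c (h v) = z}
  have hB : ∀ x y, (∀ j, x j < y j) → B x ⊆ B y := by
    rintro x y hxy _ ⟨v, hv, hvx, rfl⟩
    exact ⟨v, hv, fun j => (hvx j).trans (hxy j), rfl⟩
  let att : (Fin (n + 1) → ℚ) → Prop := fun x => sSup (B x) ∈ B x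
  let H' : (Fin (n + 1) → ℚ) → Λ := fun x =>
    if x ∈ D then mk (c (h x)) 1 0
    else if att x then mk (sSup (B x)) 2 (x 0) else mk (sSup (B x)) 0 (x 0)
  have hH1 : ∀ x, x ∈ D → H' x = mk (c (h x)) 1 0 := fun x hx => if_pos hx
  have hH2 : ∀ x, x ∉ D → att x → H' x = mk (sSup (B x)) 2 (x 0) := fun x hx hx' => by
    simp only [H', hx, hx', if_false, if_true]
  have hH3 : ∀ x, x ∉ D → ¬ att x → H' x = mk (sSup (B x)) 0 (x 0) := fun x hx hx' => by
    simp only [H', hx, hx', if_false]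
  have hH : ∀ x y, (∀ j, x j < y j) → H' x < H' y := by
    intro x y hxy
    by_cases hx : x ∈ D
    · by_cases hy : y ∈ D
      · rw [hH1 x hx, hH1 y hy, hmk]
        exact Or.inl (hc (hD x hx y hy hxy))
      · have h1 : c (h x) ∈ B y := ⟨x, hx, hxy, rfl⟩
        rcases (le_sSup h1).lt_or_eq with h2 | h2
        · by_cases hy' : att y
          · rw [hH1 x hx, hH2 y hy hy', hmk]
            exact Or.inl h2
          · rw [hH1 x hx, hH3 y hy hy', hmk]
            exact Or.inl h2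
        · have hy' : att y := by change sSup (B y) ∈ B y; rw [← h2]; exact h1
          rw [hH1 x hx, hH2 y hy hy', hmk]
          exact Or.inr ⟨h2, Or.inl (by omega)⟩
    · by_cases hy : y ∈ D
      · have h1 : sSup (B x) ≤ c (h y) := by
          refine sSup_le ?_
          rintro _ ⟨v, hv, hvx, rfl⟩
          exact (hc (hD v hv y hy fun j => (hvx j).trans (hxy j))).le
        by_cases hx' : att x
        · rw [hH2 x hx hx', hH1 y hy, hmk]
          left
          obtain ⟨v, hv, hvx, hv'⟩ := hx'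
          rw [← hv']
          exact hc (hD v hv y hy fun j => (hvx j).trans (hxy j))
        · rw [hH3 x hx hx', hH1 y hy, hmk]
          rcases h1.lt_or_eq with h2 | h2
          · exact Or.inl h2
          · exact Or.inr ⟨h2, Or.inl (by omega)⟩
      · have h1 : sSup (B x) ≤ sSup (B y) := sSup_le_sSup (hB x y hxy)
        rcases h1.lt_or_eq with h2 | h2
        · by_cases hx' : att x <;> by_cases hy' : att y
          · rw [hH2 x hx hx', hH2 y hy hy', hmk]; exact Or.inl h2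
          · rw [hH2 x hx hx', hH3 y hy hy', hmk]; exact Or.inl h2
          · rw [hH3 x hx hx', hH2 y hy hy', hmk]; exact Or.inl h2
          · rw [hH3 x hx hx', hH3 y hy hy', hmk]; exact Or.inl h2
        · by_cases hx' : att x
          · have hy' : att y := by
              change sSup (B y) ∈ B y
              rw [← h2]
              exact hB x y hxy hx'
            rw [hH2 x hx hx', hH2 y hy hy', hmk]
            exact Or.inr ⟨h2, Or.inr ⟨rfl, hxy 0⟩⟩
          · by_cases hy' : att y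
            · rw [hH3 x hx hx', hH2 y hy hy', hmk]
              exact Or.inr ⟨h2, Or.inl (by omega)⟩
            · rw [hH3 x hx hx', hH3 y hy hy', hmk]
              exact Or.inr ⟨h2, Or.inr ⟨rfl, hxy 0⟩⟩
  let K : Set Λ := Set.range H' ∪ Set.range fun x : ℚ => mk (c x) 1 0
  have hK : Countable K := ((Set.countable_range _).union (Set.countable_range _)).to_subtype
  obtain ⟨ε⟩ : Nonempty (K ↪o ℚ) := embedding_from_countable_to_dense _ _
  refine ⟨fun x => ε ⟨mk (c x) 1 0, Or.inr ⟨x, rfl⟩⟩, fun x => ε ⟨H' x, Or.inl ⟨x, rfl⟩⟩,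
    fun x y hxy => ε.strictMono ?_, fun v w hvw => ε.strictMono (hH v w hvw), fun v hv => ?_⟩
  · change mk (c x) 1 0 < mk (c y) 1 0
    rw [hmk]
    exact Or.inl (hc hxy)
  · dsimp only
    congr 1
    exact Subtype.ext (hH1 v hv)

section

variable {M : Type u} [Monoid M] {Ω' : Type v} [TopologicalSpace Ω'] [DiscreteTopology Ω']
  [Countable Ω'] (ρ : Repn M ℚ) (ρ' : Repn M Ω')
  (hS : ∀ f : ℚ → ℚ, StrictMono f → ∃ p, ∀ x, ρ.act p x = f x)
  (hM : ∀ p, StrictMono (ρ.act p))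
  {n : ℕ} {T : Type w} (L : M → T → T) (R : T → M → T)
  (r : T → (Fin (n + 1) → ℚ) → ℚ) (r' : T → (Fin (n + 1) → Ω') → Ω')
  (hinj : ∀ s t, (∀ v, r s v = r t v) → s = t)
  (hT : ∀ t v w, (∀ j, v j < w j) → r t v < r t w)
  (hT' : ∀ f : (Fin (n + 1) → ℚ) → ℚ, (∀ v w, (∀ j, v j < w j) → f v < f w) →
    ∃ t, ∀ v, r t v = f v)
  (hL : ∀ p t v, r (L p t) v = ρ.act p (r t v))
  (hR : ∀ t p v, r (R t p) v = r t (fun j => ρ.act p (v j)))
  (hL' : ∀ p t v, r' (L p t) v = ρ'.act p (r' t v))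
  (hR' : ∀ t p v, r' (R t p) v = r' t (fun j => ρ'.act p (v j)))

include hS hM hinj hT hT' hL hR hL' hR'

/-- **Continuity.** -/
theorem continuous_nary (t : T) (d : Fin (n + 1) → Ω') :
    ∃ F : Finset (Fin (n + 1) → ℚ), ∀ s : T, (∀ v ∈ F, r s v = r t v) → r' s d = r' t d := by
  classical
  choose ms hms using exists_supp ρ ρ' hS hM
  let A : Finset ℚ := Finset.univ.biUnion fun j => ms (d j)
  have hA : ∀ j, Supp ρ ρ' hS A (d j) := fun j =>
    (hms (d j)).mono ρ ρ' hS (Finset.subset_biUnion_of_mem (fun j => ms (d j)) (Finset.mem_univ j))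
  obtain ⟨q₁, q₂, E, hq₁, hq₂, hA₁, hA₂, h₁₂, h₂₁, heq⟩ := exists_q A
  refine ⟨Fintype.piFinset fun _ => E ∪ A, fun s hs => ?_⟩
  let P₁ : Set (Fin (n + 1) → ℚ) := {v | ∀ j, v j ∈ Set.range q₁}
  let P₂ : Set (Fin (n + 1) → ℚ) := {v | ∀ j, v j ∈ Set.range q₂}
  let h : (Fin (n + 1) → ℚ) → ℚ := fun v => if v ∈ P₁ then r t v else r s v
  have hh₁ : ∀ v ∈ P₁, h v = r t v := fun v hv => if_pos hv
  have hh₂ : ∀ v ∈ P₂, h v = r s v := by
    intro v hv
    by_cases hv' : v ∈ P₁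
    · rw [hh₁ v hv']
      refine (hs v ?_).symm
      rw [Fintype.mem_piFinset]
      intro j
      obtain ⟨x, hx⟩ := hv' j
      obtain ⟨y, hy⟩ := hv j
      have := heq x y (hx.trans hy.symm)
      rw [hx] at this
      exact Finset.mem_union_right _ this
    · exact if_neg hv'
  have hcross₁ : ∀ v ∈ P₁, ∀ w ∈ P₂, (∀ j, v j < w j) → r t v < r s w := by
    intro v hv w hw hvw
    have h1 : ∀ j, ∃ e ∈ E, v j < e ∧ e < w j := by
      intro j
      obtain ⟨x, hx⟩ := hv j
      obtain ⟨y, hy⟩ := hw j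
      have := h₁₂ x y (by rw [hx, hy]; exact hvw j)
      rwa [hx, hy] at this
    choose e he hve hew using h1
    have h2 := hs e (Fintype.mem_piFinset.2 fun j => Finset.mem_union_left _ (he j))
    exact (hT t v e hve).trans (h2 ▸ hT s e w hew)
  have hcross₂ : ∀ v ∈ P₂, ∀ w ∈ P₁, (∀ j, v j < w j) → r s v < r t w := by
    intro v hv w hw hvw
    have h1 : ∀ j, ∃ e ∈ E, v j < e ∧ e < w j := by
      intro j
      obtain ⟨x, hx⟩ := hv j
      obtain ⟨y, hy⟩ := hw j
      have := h₂₁ x y (by rw [hx, hy]; exact hvw j)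
      rwa [hx, hy] at this
    choose e he hve hew using h1
    have h2 := hs e (Fintype.mem_piFinset.2 fun j => Finset.mem_union_left _ (he j))
    exact (hT s v e hve).trans (h2 ▸ hT t e w hew)
  obtain ⟨m, H, hm, hH, hHm⟩ := exists_ext (P₁ ∪ P₂) h (by
    intro v hv w hw hvw
    by_cases hv1 : v ∈ P₁
    · by_cases hw1 : w ∈ P₁
      · rw [hh₁ v hv1, hh₁ w hw1]
        exact hT t v w hvw
      · have hw2 : w ∈ P₂ := hw.resolve_left hw1
        rw [hh₁ v hv1, hh₂ w hw2]
        exact hcross₁ v hv1 w hw2 hvw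
    · have hv2 : v ∈ P₂ := hv.resolve_left hv1
      by_cases hw1 : w ∈ P₁
      · rw [hh₂ v hv2, hh₁ w hw1]
        exact hcross₂ v hv2 w hw1 hvw
      · have hw2 : w ∈ P₂ := hw.resolve_left hw1
        rw [hh₂ v hv2, hh₂ w hw2]
        exact hT s v w hvw)
  obtain ⟨pm, hpm⟩ := hS m hm
  obtain ⟨p₁, hp₁⟩ := hS q₁ hq₁
  obtain ⟨p₂, hp₂⟩ := hS q₂ hq₂
  obtain ⟨tH, htH⟩ := hT' H hH
  have e₁ : R tH p₁ = L pm (R t p₁) := by
    apply hinj
    intro v
    have h1 : (fun j => ρ.act p₁ (v j)) ∈ P₁ := fun j => ⟨v j, (hp₁ _).symm⟩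
    rw [hL, hR, hR, htH, hHm _ (Or.inl h1), hpm, hh₁ _ h1]
  have e₂ : R tH p₂ = L pm (R s p₂) := by
    apply hinj
    intro v
    have h1 : (fun j => ρ.act p₂ (v j)) ∈ P₂ := fun j => ⟨v j, (hp₂ _).symm⟩
    rw [hL, hR, hR, htH, hHm _ (Or.inr h1), hpm, hh₂ _ h1]
  have hd₁ : (fun j => ρ'.act p₁ (d j)) = d := funext fun j =>
    act_fix ρ ρ' hS hM p₁ (hA j) fun x hx => by rw [hp₁, hA₁ x hx]
  have hd₂ : (fun j => ρ'.act p₂ (d j)) = d := funext fun j =>
    act_fix ρ ρ' hS hM p₂ (hA j) fun x hx => by rw [hp₂, hA₂ x hx]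
  have f₁ : r' tH d = ρ'.act pm (r' t d) := by
    have := congrArg (fun z => r' z d) e₁
    rwa [hL', hR', hR', hd₁] at this
  have f₂ : r' tH d = ρ'.act pm (r' s d) := by
    have := congrArg (fun z => r' z d) e₂
    rwa [hL', hR', hR', hd₂] at this
  exact act_inj ρ ρ' hS hM pm (f₂.symm.trans f₁)

end

end Q202.Rat
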