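import Pool.Agent.Q202.Rat.ExistsGood
import Pool.Agent.Q202.Rec.Repn
import Mathlib.GroupTheory.Subgroup.Centralizer

/-!
# Representations of the monoid of the strictly increasing maps of `ℚ`
-/

set_option autoImplicit false
set_option linter.unusedSectionVars false

namespace Q202.Rat

open Topology Filter Q202.Rec

universe u v w

section

variable {M : Type u} [Monoid M] {Ω' : Type v} (ρ : Repn M ℚ) (ρ' : Repn M Ω')
  (hS : ∀ f : ℚ → ℚ, StrictMono f → ∃ p, ∀ x, ρ.act p x = f x)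

include hS

/-- the unit which acts as `σ` -/
theorem exists_unit (σ : ℚ ≃o ℚ) : ∃ u : Mˣ, ∀ x, ρ.act u x = σ x := by
  obtain ⟨p, hp⟩ := hS σ σ.strictMono
  obtain ⟨q, hq⟩ := hS σ.symm σ.symm.strictMono
  refine ⟨⟨p, q, ρ.inj _ _ fun x => ?_, ρ.inj _ _ fun x => ?_⟩, hp⟩
  · rw [ρ.mul, ρ.one, hp, hq]; exact σ.apply_symm_apply x
  · rw [ρ.mul, ρ.one, hp, hq]; exact σ.symm_apply_apply x

/-- the unit which acts as `σ` -/
noncomputable def th (σ : ℚ ≃o ℚ) : Mˣ := (exists_unit ρ hS σ).choose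

theorem th_act (σ : ℚ ≃o ℚ) (x : ℚ) : ρ.act (th ρ hS σ) x = σ x :=
  (exists_unit ρ hS σ).choose_spec x

theorem th_mul (σ τ : ℚ ≃o ℚ) : th ρ hS (τ.trans σ) = th ρ hS σ * th ρ hS τ := by
  apply Units.ext
  apply ρ.inj
  intro x
  rw [Units.val_mul, ρ.mul, th_act, th_act, th_act]
  rfl

theorem th_one : th ρ hS (OrderIso.refl ℚ) = 1 := by
  apply Units.ext
  apply ρ.inj
  intro x
  rw [th_act, Units.val_one, ρ.one]; rfl

/-- the action of the automorphisms on `Ω'` -/
noncomputable def al (σ : ℚ ≃o ℚ) (d : Ω') : Ω' := ρ'.act (th ρ hS σ) d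

theorem al_mul (σ τ : ℚ ≃o ℚ) (d : Ω') :
    al ρ ρ' hS (τ.trans σ) d = al ρ ρ' hS σ (al ρ ρ' hS τ d) := by
  unfold al
  rw [th_mul, Units.val_mul, ρ'.mul]

theorem al_one (d : Ω') : al ρ ρ' hS (OrderIso.refl ℚ) d = d := by
  unfold al
  rw [th_one, Units.val_one, ρ'.one]

theorem al_inj (σ : ℚ ≃o ℚ) : Function.Injective (al ρ ρ' hS σ) := by
  intro d e h
  have := congrArg (al ρ ρ' hS σ.symm) h
  rw [← al_mul, ← al_mul, σ.self_trans_symm, al_one, al_one] at this
  exact this

/-- the finite set `F` supports `d` -/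
def Supp (F : Finset ℚ) (d : Ω') : Prop :=
  ∀ σ : ℚ ≃o ℚ, (∀ x ∈ F, σ x = x) → al ρ ρ' hS σ d = d

/-- Every point has a finite support. -/
theorem exists_supp (hM : ∀ p, StrictMono (ρ.act p))
    [TopologicalSpace Ω'] [DiscreteTopology Ω'] [Countable Ω'] (d : Ω') :
    ∃ F, Supp ρ ρ' hS F d := by
  let _ : TopologicalSpace ℚ := ⊥
  have _ : DiscreteTopology ℚ := ⟨rfl⟩
  have h1 := ρ.polish
  have h2 := ρ'.polish
  let I : PG ρ'.perm →* Mˣ := MonoidHom.id Mˣ
  have hI : Function.Injective I := fun _ _ h => h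
  -- the stabilizer of a point is open in the second topology
  have key : ∀ x : ℚ, {g : PG ρ'.perm | ρ.act (I g : M) x = x} ∈ 𝓝 (1 : PG ρ'.perm) := by
    intro x
    obtain ⟨up, hup1, hup2⟩ := exists_up x
    obtain ⟨dn, hdn1, hdn2⟩ := exists_down x
    let U : PG ρ'.perm := th ρ hS up
    let V : PG ρ'.perm := th ρ hS dn
    have hU : ∀ y, ρ.act (I U : M) y = up y := th_act ρ hS up
    have hV : ∀ y, ρ.act (I V : M) y = dn y := th_act ρ hS dn
    let H : Subgroup (PG ρ'.perm) :=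
      { carrier := {g | ρ.act (I g : M) x = x}
        mul_mem' := by
          intro g h hg hh
          rw [Set.mem_ofPred_eq] at *
          rw [map_mul, Units.val_mul, ρ.mul, hh, hg]
        one_mem' := by
          rw [Set.mem_ofPred_eq, map_one, Units.val_one, ρ.one]
        inv_mem' := by
          intro g hg
          rw [Set.mem_ofPred_eq] at *
          conv_lhs => rw [← hg]
          rw [map_inv, ← ρ.mul, Units.inv_mul, ρ.one] }
    have hH : ∀ g : PG ρ'.perm, g ∈ H ↔ ρ.act (I g : M) x = x := fun _ => Iff.rfl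
    -- elementwise description of commutation
    have hmulact : ∀ (a b : PG ρ'.perm) (y : ℚ),
        ρ.act (I (a * b) : M) y = ρ.act (I a : M) (ρ.act (I b : M) y) := by
      intro a b y
      rw [map_mul, Units.val_mul, ρ.mul]
    have hinvact : ∀ (a : PG ρ'.perm) (y : ℚ),
        ρ.act (I a⁻¹ : M) (ρ.act (I a : M) y) = y := by
      intro a y
      rw [← hmulact, inv_mul_cancel, map_one, Units.val_one, ρ.one]
    have hactinv : ∀ (a : PG ρ'.perm) (y : ℚ),
        ρ.act (I a : M) (ρ.act (I a⁻¹ : M) y) = y := by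
      intro a y
      rw [← hmulact, mul_inv_cancel, map_one, Units.val_one, ρ.one]
    have hge : ∀ g : PG ρ'.perm, (g * U * g⁻¹) * V = V * (g * U * g⁻¹) ↔
        x ≤ ρ.act (I g : M) x := by
      intro g
      constructor
      · intro hc
        by_contra hcon
        push Not at hcon
        -- `V` moves `g x` down, where `g U g⁻¹` is the identity; but `g U g⁻¹` moves ...
        -- evaluate at `W = V⁻¹ (g x)`, which is above `g x`
        let y := ρ.act (I V⁻¹ : M) (ρ.act (I g : M) x)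
        have hy1 : ρ.act (I V : M) y = ρ.act (I g : M) x := hactinv V _
        have hy2 : ρ.act (I g : M) x < y := by
          by_contra h3
          have h4 : y ≤ ρ.act (I g : M) x := not_lt.1 h3
          have h5 : dn y < y := hdn2 y (h4.trans_lt hcon)
          rw [← hV, hy1] at h5
          exact absurd h5 (not_lt.2 h4)
        have h6 : ρ.act (I ((g * U * g⁻¹) * V) : M) y = ρ.act (I (V * (g * U * g⁻¹)) : M) y := by
          rw [hc]
        rw [hmulact, hy1, hmulact V] at h6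
        -- left-hand side
        have h7 : ρ.act (I (g * U * g⁻¹) : M) (ρ.act (I g : M) x) = ρ.act (I g : M) x := by
          rw [hmulact, hmulact, hinvact, hU, hup1 x le_rfl]
        rw [h7, ← hy1] at h6
        have h8 : y = ρ.act (I (g * U * g⁻¹) : M) y := (ρ.perm (I V)).injective h6
        rw [hmulact, hmulact, hU] at h8
        have h9 : ρ.act (I g⁻¹ : M) y = up (ρ.act (I g⁻¹ : M) y) := by
          conv_lhs => rw [h8]
          rw [hinvact]
        have h10 : x < ρ.act (I g⁻¹ : M) y := by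
          have := (hM (I g⁻¹ : M)) hy2
          rwa [hinvact] at this
        exact absurd h9 (hup2 _ h10).ne
      · intro hx
        apply hI
        apply ρ.perm_inj
        refine Equiv.ext fun y => ?_
        change ρ.act (I ((g * U * g⁻¹) * V) : M) y = ρ.act (I (V * (g * U * g⁻¹)) : M) y
        have hg : ∀ z, z ≤ ρ.act (I g : M) x → ρ.act (I (g * U * g⁻¹) : M) z = z := by
          intro z hz
          rw [hmulact, hmulact, hU, hup1, hactinv]
          have := (hM (I g⁻¹ : M)).monotone hz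
          rwa [hinvact] at this
        rw [hmulact _ V, hmulact V, hV, hV]
        rcases le_or_gt x y with h3 | h3
        · rw [hdn1 y h3]
          by_cases h4 : y ≤ ρ.act (I g : M) x
          · rw [hg y h4, hdn1 y h3]
          · rw [hdn1]
            have h5 : ρ.act (I (g * U * g⁻¹) : M) (ρ.act (I g : M) x) <
                ρ.act (I (g * U * g⁻¹) : M) y := hM _ (not_le.1 h4)
            rw [hg _ le_rfl] at h5
            exact hx.trans h5.le
        · have h4 : dn y < y := hdn2 y h3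
          rw [hg (dn y) ((h4.le.trans h3.le).trans hx), hg y (h3.le.trans hx)]
    have hle : ∀ g : PG ρ'.perm, (g * V * g⁻¹) * U = U * (g * V * g⁻¹) ↔
        ρ.act (I g : M) x ≤ x := by
      intro g
      constructor
      · intro hc
        by_contra hcon
        push Not at hcon
        let y := ρ.act (I U⁻¹ : M) (ρ.act (I g : M) x)
        have hy1 : ρ.act (I U : M) y = ρ.act (I g : M) x := hactinv U _
        have hy2 : y < ρ.act (I g : M) x := by
          by_contra h3
          have h4 : ρ.act (I g : M) x ≤ y := not_lt.1 h3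
          have h5 : y < up y := hup2 y (hcon.trans_le h4)
          rw [← hU, hy1] at h5
          exact absurd h5 (not_lt.2 h4)
        have h6 : ρ.act (I ((g * V * g⁻¹) * U) : M) y = ρ.act (I (U * (g * V * g⁻¹)) : M) y := by
          rw [hc]
        rw [hmulact, hy1, hmulact U] at h6
        have h7 : ρ.act (I (g * V * g⁻¹) : M) (ρ.act (I g : M) x) = ρ.act (I g : M) x := by
          rw [hmulact, hmulact, hinvact, hV, hdn1 x le_rfl]
        rw [h7, ← hy1] at h6
        have h8 : y = ρ.act (I (g * V * g⁻¹) : M) y := (ρ.perm (I U)).injective h6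
        rw [hmulact, hmulact, hV] at h8
        have h9 : ρ.act (I g⁻¹ : M) y = dn (ρ.act (I g⁻¹ : M) y) := by
          conv_lhs => rw [h8]
          rw [hinvact]
        have h10 : ρ.act (I g⁻¹ : M) y < x := by
          have := (hM (I g⁻¹ : M)) hy2
          rwa [hinvact] at this
        exact absurd h9 (hdn2 _ h10).ne'
      · intro hx
        apply hI
        apply ρ.perm_inj
        refine Equiv.ext fun y => ?_
        change ρ.act (I ((g * V * g⁻¹) * U) : M) y = ρ.act (I (U * (g * V * g⁻¹)) : M) y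
        have hg : ∀ z, ρ.act (I g : M) x ≤ z → ρ.act (I (g * V * g⁻¹) : M) z = z := by
          intro z hz
          rw [hmulact, hmulact, hV, hdn1, hactinv]
          have := (hM (I g⁻¹ : M)).monotone hz
          rwa [hinvact] at this
        rw [hmulact _ U, hmulact U, hU, hU]
        rcases le_or_gt y x with h3 | h3
        · rw [hup1 y h3]
          by_cases h4 : ρ.act (I g : M) x ≤ y
          · rw [hg y h4, hup1 y h3]
          · rw [hup1]
            have h5 : ρ.act (I (g * V * g⁻¹) : M) y <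
                ρ.act (I (g * V * g⁻¹) : M) (ρ.act (I g : M) x) := hM _ (not_le.1 h4)
            rw [hg _ le_rfl] at h5
            exact h5.le.trans hx
        · have h4 : y < up y := hup2 y h3
          rw [hg (up y) (hx.trans (h3.le.trans h4.le)), hg y (hx.trans h3.le)]
    have hcl : IsClosed (H : Set (PG ρ'.perm)) := by
      have e : (H : Set (PG ρ'.perm)) =
          {g | (g * U * g⁻¹) * V = V * (g * U * g⁻¹)} ∩
          {g | (g * V * g⁻¹) * U = U * (g * V * g⁻¹)} := by
        ext g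
        rw [Set.mem_inter_iff, Set.mem_ofPred_eq, Set.mem_ofPred_eq, hge, hle]
        exact (hH g).trans ⟨fun h => ⟨h.ge, h.le⟩, fun h => le_antisymm h.2 h.1⟩
      rw [e]
      have hcU : Continuous fun g : PG ρ'.perm => g * U * g⁻¹ :=
        (continuous_id.mul continuous_const).mul continuous_inv
      have hcV : Continuous fun g : PG ρ'.perm => g * V * g⁻¹ :=
        (continuous_id.mul continuous_const).mul continuous_inv
      exact (isClosed_eq (hcU.mul continuous_const) (continuous_const.mul hcU)).inter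
        (isClosed_eq (hcV.mul continuous_const) (continuous_const.mul hcV))
    have hcount : Countable (PG ρ'.perm ⧸ H) := by
      have hinj : Function.Injective (fun q : PG ρ'.perm ⧸ H =>
          ρ.act (I (Quotient.out q) : M) x) := by
        intro p q hpq
        rw [← Quotient.out_eq p, ← Quotient.out_eq q]
        refine QuotientGroup.eq.2 ((hH _).2 ?_)
        rw [hmulact]
        have : ρ.act (I (Quotient.out q) : M) x = ρ.act (I (Quotient.out p) : M) x := hpq.symm
        rw [this, hinvact]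
      exact hinj.countable
    have := isOpen_of_isClosed H hcl
    exact this.mem_nhds H.one_mem
  obtain ⟨F, hF⟩ := exists_support ρ.perm ρ'.perm h1 h2 key d
  exact ⟨F, fun σ hσ => hF (th ρ hS σ) fun x hx => by
    change ρ.act (th ρ hS σ) x = x
    rw [th_act, hσ x hx]⟩

theorem Supp.mono {F E : Finset ℚ} (h : F ⊆ E) {d : Ω'} (hd : Supp ρ ρ' hS F d) :
    Supp ρ ρ' hS E d := fun σ hσ => hd σ fun x hx => hσ x (h hx)

/-- automorphisms which agree on a support act in the same way -/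
theorem Supp.congr {F : Finset ℚ} {d : Ω'} (hd : Supp ρ ρ' hS F d) {σ τ : ℚ ≃o ℚ}
    (h : ∀ x ∈ F, σ x = τ x) : al ρ ρ' hS σ d = al ρ ρ' hS τ d := by
  have h1 : al ρ ρ' hS (σ.trans τ.symm) d = d := hd _ fun x hx => by
    rw [OrderIso.trans_apply, h x hx, τ.symm_apply_apply]
  rw [al_mul] at h1
  have h2 := congrArg (al ρ ρ' hS τ) h1
  rw [← al_mul, τ.symm_trans_self, al_one] at h2
  exact h2

theorem Supp.image {F : Finset ℚ} {d : Ω'} (hd : Supp ρ ρ' hS F d) (σ : ℚ ≃o ℚ) :
    Supp ρ ρ' hS (F.image σ) (al ρ ρ' hS σ d) := by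
  intro τ hτ
  rw [← al_mul]
  refine hd.congr ρ ρ' hS fun x hx => ?_
  exact hτ _ (Finset.mem_image_of_mem _ hx)

variable (hM : ∀ p, StrictMono (ρ.act p)) [TopologicalSpace Ω'] [DiscreteTopology Ω']
  [Countable Ω']

include hM

/-- the limit of the actions of the automorphisms which converge to `p` -/
theorem exists_lim (p : M) :
    ∃ q : M, (∀ (d : Ω') (F : Finset ℚ) (σ : ℚ ≃o ℚ), Supp ρ ρ' hS F d →
      (∀ x ∈ F, σ x = ρ.act p x) → ρ'.act q d = al ρ ρ' hS σ d) := by
  classical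
  choose ms hms using exists_supp ρ ρ' hS hM
  choose σ hσ using fun d : Ω' => ext_iso (f := ρ.act p) (S := ms d)
    fun x _ y _ h => hM p h
  have key : ∀ (d : Ω') (F : Finset ℚ) (τ : ℚ ≃o ℚ), Supp ρ ρ' hS F d →
      (∀ x ∈ F, τ x = ρ.act p x) → al ρ ρ' hS (σ d) d = al ρ ρ' hS τ d := by
    intro d F τ hF hτ
    obtain ⟨κ, hκ⟩ := ext_iso (f := ρ.act p) (S := ms d ∪ F) fun x _ y _ h => hM p h
    have e1 : al ρ ρ' hS (σ d) d = al ρ ρ' hS κ d :=
      (hms d).congr ρ ρ' hS fun x hx => by rw [hσ d x hx, hκ x (Finset.mem_union_left _ hx)]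
    have e2 : al ρ ρ' hS τ d = al ρ ρ' hS κ d :=
      hF.congr ρ ρ' hS fun x hx => by rw [hτ x hx, hκ x (Finset.mem_union_right _ hx)]
    rw [e1, e2]
  obtain ⟨q, hq⟩ := ρ'.closed (fun d => al ρ ρ' hS (σ d) d) (by
    intro E
    obtain ⟨τ, hτ⟩ := ext_iso (f := ρ.act p) (S := E.biUnion ms) fun x _ y _ h => hM p h
    refine ⟨th ρ hS τ, fun d hd => ?_⟩
    exact (key d _ τ (hms d) fun x hx =>
      hτ x (Finset.mem_biUnion.2 ⟨d, hd, hx⟩)).symm)
  exact ⟨q, fun d F τ hF hτ => by rw [hq]; exact key d F τ hF hτ⟩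

theorem lim_comm {p q : M}
    (hq : ∀ (d : Ω') (F : Finset ℚ) (σ : ℚ ≃o ℚ), Supp ρ ρ' hS F d →
      (∀ x ∈ F, σ x = ρ.act p x) → ρ'.act q d = al ρ ρ' hS σ d) (σ τ : ℚ ≃o ℚ)
    (hst : ∀ x, σ (ρ.act p x) = ρ.act p (τ x)) (x : ℚ) :
    σ (ρ.act q x) = ρ.act q (τ x) := by
  classical
  have h1 : (th ρ hS σ : M) * q = q * th ρ hS τ := by
    apply ρ'.inj
    intro d
    rw [ρ'.mul, ρ'.mul]
    obtain ⟨F, hF⟩ := exists_supp ρ ρ' hS hM d
    obtain ⟨κ, hκ⟩ := ext_iso (f := ρ.act p) (S := F) fun x _ y _ h => hM p h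
    rw [hq d _ κ hF hκ]
    have h2 : ρ'.act q (al ρ ρ' hS τ d) =
        al ρ ρ' hS (τ.symm.trans (κ.trans σ)) (al ρ ρ' hS τ d) := by
      refine hq _ _ _ (hF.image ρ ρ' hS τ) fun y hy => ?_
      obtain ⟨x, hx, rfl⟩ := Finset.mem_image.1 hy
      rw [OrderIso.trans_apply, OrderIso.trans_apply, τ.symm_apply_apply, hκ x hx, hst]
    have h3 : ρ'.act q (ρ'.act (th ρ hS τ) d) = ρ'.act q (al ρ ρ' hS τ d) := rfl
    rw [h3, h2, ← al_mul]
    have h4 : τ.trans (τ.symm.trans (κ.trans σ)) = κ.trans σ := by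
      ext x
      simp
    rw [h4, al_mul]
    rfl
  have h2 : ρ.act ((th ρ hS σ : M) * q) x = ρ.act (q * th ρ hS τ) x := by rw [h1]
  rw [ρ.mul, ρ.mul, th_act, th_act] at h2
  exact h2

theorem lim_eq_of_good {p q : M} {S : Set ℚ} {π : ℚ → ℚ} (hp : IsGood (ρ.act p) S π)
    (hq : ∀ (d : Ω') (F : Finset ℚ) (σ : ℚ ≃o ℚ), Supp ρ ρ' hS F d →
      (∀ x ∈ F, σ x = ρ.act p x) → ρ'.act q d = al ρ ρ' hS σ d) : q = p := by
  classical
  have hcomm := fun σ τ hst x => lim_comm ρ ρ' hS hM hq σ τ hst x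
  have hqS : ∀ x, ρ.act q x ∈ S := by
    intro x
    by_contra hcon
    obtain ⟨τ, -, hτ⟩ := exists_up (x - 1)
    obtain ⟨σ, h1, h2, -⟩ := exists_lift₁ hp τ
    have h3 := hcomm σ τ h1 x
    rw [h2 _ hcon] at h3
    exact absurd ((hM q).injective h3) (hτ x (by linarith)).ne
  have hπ : ∀ x, π (ρ.act q x) = x := by
    intro x
    by_contra hcon
    rcases lt_or_gt_of_ne hcon with hlt | hgt
    · obtain ⟨τ, h1, h2⟩ := exists_down x
      obtain ⟨σ, h3, h4, h5⟩ := exists_lift₁ hp τ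
      have h6 := hcomm σ τ h3 x
      rw [h1 x le_rfl] at h6
      have h7 := (h5 _ (hqS x)).2
      rw [h6] at h7
      exact absurd h7.symm (h2 _ hlt).ne
    · obtain ⟨τ, h1, h2⟩ := exists_up x
      obtain ⟨σ, h3, h4, h5⟩ := exists_lift₁ hp τ
      have h6 := hcomm σ τ h3 x
      rw [h1 x le_rfl] at h6
      have h7 := (h5 _ (hqS x)).2
      rw [h6] at h7
      exact absurd h7 (h2 _ hgt).ne
  apply ρ.inj
  intro x
  by_contra hne
  obtain ⟨σ, h1, h2⟩ := exists_lift₂ hp (hqS x) (by rwa [hπ])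
  have h3 := hcomm σ (OrderIso.refl ℚ) h1 x
  exact h2 h3

/-- An element acts on a point of `Ω'` in the same way as every automorphism which agrees with it
on a support of the point. -/
theorem inj_act (p : M) {d : Ω'} {F : Finset ℚ}
    (hF : Supp ρ ρ' hS F d) {σ : ℚ ≃o ℚ} (hσ : ∀ x ∈ F, σ x = ρ.act p x) :
    ρ'.act p d = al ρ ρ' hS σ d := by
  classical
  obtain ⟨q, hq⟩ := exists_lim ρ ρ' hS hM p
  suffices h : q = p by
    rw [← h]
    exact hq d F σ hF hσ
  apply ρ.inj
  intro x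
  obtain ⟨r₀, S₁, S₂, π₁, π₂, hr₀, ⟨a, ha⟩, hg₁, hg₂⟩ := exists_good (hM p) x
  obtain ⟨r, hr⟩ := hS r₀ hr₀
  have hr' : ρ.act r = r₀ := funext hr
  have hpr' : ρ.act (p * r) = ρ.act p ∘ r₀ := funext fun y => by
    rw [ρ.mul, hr]; rfl
  obtain ⟨q₁, hq₁⟩ := exists_lim ρ ρ' hS hM r
  obtain ⟨q₂, hq₂⟩ := exists_lim ρ ρ' hS hM (p * r)
  have e₁ : q₁ = r := lim_eq_of_good ρ ρ' hS hM (hr'.symm ▸ hg₁) hq₁
  have e₂ : q₂ = p * r := lim_eq_of_good ρ ρ' hS hM (hpr'.symm ▸ hg₂) hq₂
  subst e₁ e₂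
  have h1 : q * q₁ = p * q₁ := by
    apply ρ'.inj
    intro d
    obtain ⟨F, hF⟩ := exists_supp ρ ρ' hS hM d
    obtain ⟨σ, hσ⟩ := ext_iso (f := ρ.act q₁) (S := F) fun x _ y _ h => hM _ h
    obtain ⟨τ, hτ⟩ := ext_iso (f := ρ.act p) (S := F.image σ) fun x _ y _ h => hM _ h
    rw [hq₂ d F (σ.trans τ) hF (fun y hy => by
      rw [OrderIso.trans_apply, hτ _ (Finset.mem_image_of_mem _ hy), hσ y hy, ρ.mul]),
      ρ'.mul, hq₁ d F σ hF hσ, hq _ _ τ (hF.image ρ ρ' hS σ) hτ, al_mul]
  have h2 : ρ.act (q * q₁) a = ρ.act (p * q₁) a := by rw [h1]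
  rw [ρ.mul, ρ.mul, hr, ha] at h2
  exact h2

/-- the elements act injectively on `Ω'` -/
theorem act_inj (p : M) : Function.Injective (ρ'.act p) := by
  classical
  intro d e h
  obtain ⟨F, hF⟩ := exists_supp ρ ρ' hS hM d
  obtain ⟨E, hE⟩ := exists_supp ρ ρ' hS hM e
  obtain ⟨σ, hσ⟩ := ext_iso (f := ρ.act p) (S := F ∪ E) fun x _ y _ h => hM _ h
  rw [inj_act ρ ρ' hS hM p hF (σ := σ) fun x hx => hσ x (Finset.mem_union_left _ hx),
    inj_act ρ ρ' hS hM p hE (σ := σ) fun x hx => hσ x (Finset.mem_union_right _ hx)] at h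
  exact al_inj ρ ρ' hS σ h

/-- an element which fixes a support of a point fixes the point -/
theorem act_fix (p : M) {d : Ω'} {F : Finset ℚ} (hF : Supp ρ ρ' hS F d)
    (hp : ∀ x ∈ F, ρ.act p x = x) : ρ'.act p d = d := by
  rw [inj_act ρ ρ' hS hM p hF (σ := OrderIso.refl ℚ) fun x hx => (hp x hx).symm, al_one]

end

end Q202.Rat
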